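import Pool.Agent.Helper19.PM.GoalsS
import Pool.Agent.Helper12.PM.CHW
import Pool.Agent.Helper29.BL.PS

/-!
# Project P1S (MP_a41896_nt), packet TN-CWS: comparison of the heights of the centre
-/

set_option autoImplicit false

open MvPolynomial

namespace Pool.Agent.Helper57.PM

open WeierstrassCurve Height Height.AdmissibleAbsValues
open Pool.Agent.Helper29.BL Pool.Agent.Helper92.Ru Pool.Agent.Helper42.SG
open Pool.Agent.Helper5.UN (CodimGT cH)
open Pool.Agent.Helper68.VN hiding xs Good nz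
open Pool.Agent.Helper19.PM

section

variable {K : Type} [Field K] {σ : Type} [DecidableEq σ]

theorem eval_fT (S : Finset σ) (x : σ → K) (g : MvPolynomial σ K) :
    eval (fun i : {i // i ∉ S} => x i.1) (fT S x g) = eval x g := by
  unfold fT
  induction g using MvPolynomial.induction_on with
  | C a => simp
  | add p q hp hq => rw [map_add, map_add, map_add, hp, hq]
  | mul_X p i hp =>
    rw [map_mul, map_mul, map_mul, hp, aeval_X, eval_X]
    congr 1
    split_ifs with h
    · rw [eval_C]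
    · rw [eval_X]

theorem deg_fT [Fintype σ] (S : Finset σ) (x : σ → K) (g : MvPolynomial σ K) (D : ℕ)
    (hg : ∀ i, degreeOf i g ≤ D) (i : {i // i ∉ S}) : degreeOf i (fT S x g) ≤ D := by
  have e : fT S x g = ∑ m ∈ g.support, C (coeff m g) *
      ∏ k, (if h : k ∈ S then C (x k) else X ⟨k, h⟩ : MvPolynomial {i // i ∉ S} K) ^ m k := by
    unfold fT
    rw [aeval_def, eval₂_eq']
    rfl
  rw [e]
  refine (degreeOf_sum_le _ _ _).trans (Finset.sup_le fun m hm => ?_)
  refine (degreeOf_C_mul_le _ _ _).trans ((degreeOf_prod_le _ _ _).trans ?_)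
  have h1 : ∀ k, degreeOf i ((if h : k ∈ S then C (x k) else X ⟨k, h⟩ :
      MvPolynomial {i // i ∉ S} K) ^ m k) ≤ if k = i.1 then m k else 0 := by
    intro k
    refine (degreeOf_pow_le _ _ _).trans ?_
    by_cases hk : k ∈ S
    · rw [dif_pos hk, degreeOf_C]; simp
    · rw [dif_neg hk]
      classical
      rw [degreeOf_X]
      by_cases hki : k = i.1
      · rw [if_pos hki]
        split_ifs <;> simp
      · rw [if_neg hki]
        have : i ≠ (⟨k, hk⟩ : {i // i ∉ S}) := fun h => hki (by rw [h])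
        rw [if_neg this]
        simp
  calc ∑ k, degreeOf i ((if h : k ∈ S then C (x k) else X ⟨k, h⟩ :
        MvPolynomial {i // i ∉ S} K) ^ m k) ≤ ∑ k, if k = i.1 then m k else 0 :=
        Finset.sum_le_sum fun k _ => h1 k
    _ = m i.1 := by simp
    _ ≤ degreeOf i.1 g := by
        rw [degreeOf_eq_sup]
        exact Finset.le_sup (f := fun m : σ →₀ ℕ => m i.1) hm
    _ ≤ D := hg i.1

end

theorem t_CWS : Pool.Agent.Helper19.PM.CWS := by
  intro K _ _ σ _ _ S J _ D f x hdeg hne
  classical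
  refine ⟨fun g => eval_fT S x g, fun j i => deg_fT S x (f j) D (hdeg j) i, ?_⟩
  obtain ⟨j0, hj0⟩ := hne
  have hne' : ∃ j, eval (fun i : {i // i ∉ S} => x i.1) (fT S x (f j)) ≠ 0 :=
    ⟨j0, by rw [eval_fT]; exact hj0⟩
  obtain ⟨hF, hr⟩ := Pool.Agent.Helper12.PM.t_CHW K {i // i ∉ S} J (fun _ _ => D)
    (fun j => fT S x (f j)) (fun i => x i.1) hne'
  have hbd : ∀ v : AbsoluteValue K ℝ, BddAbove (Set.range fun j => v (eval x (f j))) :=
    fun v => (Set.finite_range _).bddAbove
  have hle : ∀ v : AbsoluteValue K ℝ, v (eval x (f j0)) ≤ ⨆ j, v (eval x (f j)) :=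
    fun v => le_ciSup (hbd v) j0
  have hS : ∀ v : AbsoluteValue K ℝ, 0 < ⨆ j, v (eval x (f j)) :=
    fun v => (v.pos hj0).trans_le (hle v)
  have hb : ∀ v : AbsoluteValue K ℝ,
      Real.posLog ((∏ i, Mv v (x i)) ^ D / ⨆ j, v (eval x (f j))) ≤
      (D : ℝ) * ∑ i ∈ S, Real.log (Mv v (x i)) +
        (- Real.log (rhoW (fun _ _ => D) (fun j => fT S x (f j))
          v (fun i : {i // i ∉ S} => x i.1))) := by
    intro v
    obtain ⟨s, hs⟩ : ∃ s, s = ⨆ j, v (eval x (f j)) := ⟨_, rfl⟩
    obtain ⟨A, hA⟩ : ∃ A, A = ∏ i ∈ S, Mv v (x i) := ⟨_, rfl⟩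
    obtain ⟨P, hP⟩ : ∃ P, P = ∏ i : {i // i ∉ S}, Mv v (x i.1) := ⟨_, rfl⟩
    have hs0 : 0 < s := by rw [hs]; exact hS v
    have hA0 : 0 < A := by rw [hA]; exact Finset.prod_pos fun i _ => Mv_pos v _
    have hA1 : 1 ≤ A := by
      rw [hA]
      calc (1 : ℝ) = ∏ i ∈ S, 1 := by simp
        _ ≤ _ := Finset.prod_le_prod (fun _ _ => zero_le_one) fun i _ => one_le_Mv v _
    have hP0 : 0 < P := by rw [hP]; exact Finset.prod_pos fun i _ => Mv_pos v _
    have hPA : ∏ i, Mv v (x i) = A * P := by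
      rw [hA, hP, ← Finset.prod_mul_prod_compl S]
      congr 1
      rw [← Finset.prod_coe_sort]
      refine Fintype.prod_equiv (Equiv.subtypeEquivRight fun i => by simp) _ _ fun i => rfl
    have hlogA : Real.log (A ^ D) = (D : ℝ) * ∑ i ∈ S, Real.log (Mv v (x i)) := by
      rw [Real.log_pow, hA, Real.log_prod fun i _ => (Mv_pos v (x i)).ne']
    have hrho : rhoW (fun _ _ => D) (fun j => fT S x (f j)) v (fun i : {i // i ∉ S} => x i.1) =
        min 1 (s / P ^ D) := by
      unfold rhoW
      congr 1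
      have e : ∀ j, v (eval (fun i : {i // i ∉ S} => x i.1) (fT S x (f j))) /
          ∏ i : {i // i ∉ S}, Mv v (x i.1) ^ D = v (eval x (f j)) * (1 / P ^ D) := by
        intro j
        rw [eval_fT, Finset.prod_pow, ← hP]
        ring
      simp only [e]
      rw [← Real.iSup_mul_of_nonneg (by positivity), ← hs]
      ring
    rw [hrho, hPA, ← hs, ← hlogA, mul_pow]
    have hq : 0 < s / P ^ D := by positivity
    have h1 : Real.log (A ^ D * P ^ D / s) = Real.log (A ^ D) - Real.log (s / P ^ D) := by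
      have : A ^ D * P ^ D / s = A ^ D / (s / P ^ D) := by field_simp
      rw [this, Real.log_div (by positivity) hq.ne']
    have h2 : 0 ≤ Real.log (A ^ D) := Real.log_nonneg (one_le_pow₀ hA1)
    rw [Real.posLog, h1]
    rcases le_total 1 (s / P ^ D) with h | h
    · rw [min_eq_left h, Real.log_one]
      have := Real.log_nonneg h
      refine max_le (by linarith) (by linarith)
    · rw [min_eq_right h]
      have := Real.log_nonpos hq.le h
      refine max_le (by linarith) (by linarith)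
  have hFM : FS (K := K) (fun v => (D : ℝ) * ∑ i ∈ S, Real.log (Mv v (x i))) :=
    (FS.sum _ fun i _ => FS_log_Mv (x i)).const_mul _
  have hFr : FS (fun v => - Real.log (rhoW (fun _ _ => D) (fun j => fT S x (f j))
      v (fun i : {i // i ∉ S} => x i.1))) := by
    refine hF.mono fun v _ h => ?_
    rw [h, neg_zero]
  have hFb := hFM.add hFr
  have hFp : FS (fun v => Real.posLog ((∏ i, Mv v (x i)) ^ D / ⨆ j, v (eval x (f j)))) := by
    refine hFb.mono fun v _ h => ?_
    exact le_antisymm ((hb v).trans h.le) Real.posLog_nonneg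
  have h1 := PS_mono hFp hFb hb
  rw [PS_add hFM hFr, PS_const_mul, PS_sum _ (fun i _ => FS_log_Mv (x i))] at h1
  simp only [PS_log_Mv] at h1
  unfold cH cW
  linarith

end Pool.Agent.Helper57.PM
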